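import Pool.Agent.helper91.MM.SpecA

/-!
# PFS: a copy of the Cantor space in the complement of a meager set
-/

set_option autoImplicit false

namespace Pool.Agent.MM

open Pool.Agent.Scheepers Filter Topology

theorem PFS_neBot (x : ℕ → Bool) : (𝓝[≠] x).NeBot := by
  rw [← mem_closure_iff_nhdsWithin_neBot]
  have ht : Tendsto (fun n : ℕ => Function.update x n (!(x n))) atTop (𝓝 x) := by
    rw [tendsto_pi_nhds]
    intro i
    refine tendsto_const_nhds.congr' ?_
    filter_upwards [eventually_gt_atTop i] with n hn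
    rw [Function.update_of_ne (by omega)]
  refine mem_closure_of_tendsto ht (Eventually.of_forall (fun n => ?_))
  intro h
  have h' : Function.update x n (!(x n)) = x := h
  have h1 := congrFun h' n
  rw [Function.update_self] at h1
  cases hx : x n <;> rw [hx] at h1 <;> exact absurd h1 (by decide)

theorem PFS_unc (t : Set (ℕ → Bool)) (hG : IsGδ t) (hd : Dense t) : ¬ t.Countable := by
  intro hc
  have h1 : Dense tᶜ := by
    have h2 : Dense (⋂ c ∈ t, ({c}ᶜ : Set (ℕ → Bool))) :=
      dense_biInter_of_isOpen (fun c _ => isOpen_compl_singleton) hc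
        (fun c _ => by
          have := PFS_neBot c
          exact dense_compl_singleton c)
    have h3 : (⋂ c ∈ t, ({c}ᶜ : Set (ℕ → Bool))) = tᶜ := by
      ext y
      simp only [Set.mem_iInter, Set.mem_compl_iff, Set.mem_singleton_iff]
      exact ⟨fun h hy => h y hy rfl, fun h c hc hy => h (hy ▸ hc)⟩
    rwa [h3] at h2
  have h4 := Dense.inter_of_Gδ hG hc.isGδ_compl hd h1
  rw [Set.inter_compl_self] at h4
  exact h4.nonempty.ne_empty rfl

theorem PFS : PFS_stmt := by
  intro Z hZ
  obtain ⟨t, htZ, hG, hd⟩ := mem_residual.mp hZ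
  have hunc := PFS_unc t hG hd
  have hb : PolishSpace Bool := inferInstance
  have hp : PolishSpace (ℕ → Bool) := inferInstance
  let _m : MeasurableSpace (ℕ → Bool) := borel (ℕ → Bool)
  have _hm : BorelSpace (ℕ → Bool) := ⟨rfl⟩
  obtain ⟨τ, hle, hpol, hcl, -⟩ := hG.measurableSet.isClopenable
  obtain ⟨j, hr, hcont, hinj⟩ := @IsClosed.exists_nat_bool_injection_of_not_countable (ℕ → Bool) τ hpol t hcl hunc
  refine ⟨j, ?_, hinj, ?_⟩
  · exact continuous_le_rng hle hcont
  · intro y
    exact htZ (hr ⟨y, rfl⟩)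

end Pool.Agent.MM
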